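import Pool.Agent.Helper82.EN.Stmts2

set_option autoImplicit false

/-! # ENCODING BY TM, module FSTC: 3-colourings and transducers -/

namespace Pool.Agent.Helper82.EN

/-- state after reading a word -/
def fstc_st {k : ℕ} (F : FST k) : Fin k → List (Fin 5) → Fin k
  | q, [] => q
  | q, a :: x => fstc_st F (F.next q a).1 x

theorem fstc_out_append {k : ℕ} (F : FST k) (x y : List (Fin 5)) :
    ∀ q, F.out q (x ++ y) = F.out q x ++ F.out (fstc_st F q x) y := by
  induction x with
  | nil => intro q; rfl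
  | cons a x ih => intro q; simp [FST.out, fstc_st, ih]

theorem fstc_st_append {k : ℕ} (F : FST k) (x y : List (Fin 5)) :
    ∀ q, fstc_st F q (x ++ y) = fstc_st F (fstc_st F q x) y := by
  induction x with
  | nil => intro q; rfl
  | cons a x ih => intro q; simp [fstc_st, ih]

theorem fstc_out_length {k : ℕ} (F : FST k) (x : List (Fin 5)) :
    ∀ q, (F.out q x).length = x.length := by
  induction x with
  | nil => intro q; rfl
  | cons a x ih => intro q; simp [FST.out, ih]

/-- next state on a zero -/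
def fstc_z {k : ℕ} (F : FST k) (q : Fin k) : Fin k := (F.next q 0).1

/-- output on a zero -/
def fstc_o {k : ℕ} (F : FST k) (q : Fin k) : Fin 5 := (F.next q 0).2

/-- state after `n` zeros and a one -/
def fstc_s {k : ℕ} (F : FST k) (n : ℕ) (q : Fin k) : Fin k :=
  (F.next ((fstc_z F)^[n] q) 1).1

theorem fstc_st_zero {k : ℕ} (F : FST k) (n : ℕ) :
    ∀ q, fstc_st F q (List.replicate n 0) = (fstc_z F)^[n] q := by
  induction n with
  | zero => intro q; rfl
  | succ n ih => intro q; rw [List.replicate_succ, fstc_st, ih, Function.iterate_succ_apply]; rfl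

theorem fstc_out_zero {k : ℕ} (F : FST k) (n : ℕ) :
    ∀ q, F.out q (List.replicate n 0) =
      (List.range n).map fun t => fstc_o F ((fstc_z F)^[t] q) := by
  induction n with
  | zero => intro q; rfl
  | succ n ih =>
    intro q
    rw [List.replicate_succ, FST.out, ih, List.range_succ_eq_map]
    simp only [List.map_cons, List.map_map]
    rfl

theorem fstc_rm (f : ℕ → Fin 5) (a b : ℕ) :
    (List.range (a + b)).map f = (List.range a).map f ++ (List.range b).map fun t => f (a + t) := by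
  rw [List.range_add, List.map_append, List.map_map]
  rfl

theorem fstc_rep (f : ℕ → Fin 5) (n : ℕ) (c : Fin 5) (h : ∀ t < n, f t = c) :
    (List.range n).map f = List.replicate n c := by
  rw [List.eq_replicate_iff]
  refine ⟨by simp, ?_⟩
  intro b hb
  obtain ⟨t, ht, rfl⟩ := List.mem_map.mp hb
  exact h t (List.mem_range.mp ht)

theorem fstc_block (f : ℕ → Fin 5) (n : ℕ) (h0 : f 0 = 2) (h : ∀ t < n, f (t + 1) = 0) :
    (List.range (n + 1)).map f = 2 :: List.replicate n 0 := by
  rw [List.range_succ_eq_map, List.map_cons, h0, List.map_map]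
  congr 1
  exact fstc_rep _ n 0 fun t ht => h t ht

theorem fstc_map_inj (f g : ℕ → Fin 5) (n : ℕ) (h : (List.range n).map f = (List.range n).map g) :
    ∀ t < n, f t = g t := by
  intro t ht
  exact List.map_inj_left.mp h t (List.mem_range.mpr ht)

/-- the letters of `wz` -/
def fstc_W (V m t : ℕ) : Fin 5 :=
  if t = V + 3 * (m + 1) then 1 else if V ≤ t ∧ (t - V) % (m + 1) = 0 then 2 else 0

theorem fstc_W_one (V m t : ℕ) : fstc_W V m t = 1 ↔ t = V + 3 * (m + 1) := by
  unfold fstc_W
  split_ifs with h1 h2 <;> simp [h1]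

theorem fstc_W_zero (V m t : ℕ) (h : t < V) : fstc_W V m t = 0 := by
  unfold fstc_W
  rw [if_neg (by omega), if_neg (by omega)]

theorem fstc_W_two (V m c : ℕ) (hc : c < 3) : fstc_W V m (V + c * (m + 1)) = 2 := by
  unfold fstc_W
  have h1 : c * (m + 1) < 3 * (m + 1) := Nat.mul_lt_mul_of_pos_right hc (by omega)
  rw [if_neg (by omega), if_pos ⟨by omega, by simp⟩]

theorem fstc_W_off (V m c t : ℕ) (hc : c < 3) (ht : t < m) :
    fstc_W V m (V + c * (m + 1) + (t + 1)) = 0 := by
  unfold fstc_W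
  have h1 : c * (m + 1) + (m + 1) ≤ 3 * (m + 1) := by
    have : (c + 1) * (m + 1) ≤ 3 * (m + 1) := Nat.mul_le_mul_right _ (by omega)
    nlinarith
  rw [if_neg (by omega), if_neg]
  rintro ⟨-, h⟩
  have e : V + c * (m + 1) + (t + 1) - V = (t + 1) + c * (m + 1) := by omega
  rw [e, Nat.add_mul_mod_self_right, Nat.mod_eq_of_lt (by omega)] at h
  omega

theorem fstc_W_two' (V m t : ℕ) (ht : t < V + 3 * (m + 1) + 1) (h : fstc_W V m t = 2) :
    ∃ c : Fin 3, t = V + (c : ℕ) * (m + 1) := by
  unfold fstc_W at h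
  by_cases h1 : t = V + 3 * (m + 1)
  · rw [if_pos h1] at h
    exact absurd h (by decide)
  rw [if_neg h1] at h
  by_cases h2 : V ≤ t ∧ (t - V) % (m + 1) = 0
  swap
  · rw [if_neg h2] at h
    exact absurd h (by decide)
  obtain ⟨h3, h4⟩ := h2
  have h5 := Nat.div_add_mod (t - V) (m + 1)
  rw [h4, Nat.add_zero] at h5
  have h6 : (t - V) / (m + 1) < 3 := by
    rw [Nat.div_lt_iff_lt_mul (by omega)]
    omega
  refine ⟨⟨(t - V) / (m + 1), h6⟩, ?_⟩
  have : (t - V) / (m + 1) * (m + 1) = (m + 1) * ((t - V) / (m + 1)) := Nat.mul_comm _ _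
  simp only
  omega

theorem fstc_wz (V : ℕ) (E : List (ℕ × ℕ)) :
    wz V E = (List.range (nst V E)).map (fstc_W V E.length) := by
  set m := E.length with hm
  have hN : nst V E = V + (m + 1) + (m + 1) + (m + 1) + 1 := by
    unfold nst
    omega
  rw [hN, fstc_rm, fstc_rm, fstc_rm, fstc_rm]
  unfold wz
  rw [← hm, fstc_rep (fstc_W V m) V 0 (fun t ht => fstc_W_zero V m t ht)]
  rw [fstc_block (fun t => fstc_W V m (V + t)) m (by simpa using fstc_W_two V m 0 (by omega))
    (fun t ht => by simpa using fstc_W_off V m 0 t (by omega) ht)]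
  rw [fstc_block (fun t => fstc_W V m (V + (m + 1) + t)) m
    (by simpa using fstc_W_two V m 1 (by omega))
    (fun t ht => by simpa using fstc_W_off V m 1 t (by omega) ht)]
  have e2 : ∀ t, V + (m + 1) + (m + 1) + t = V + 2 * (m + 1) + t := fun t => by omega
  rw [fstc_block (fun t => fstc_W V m (V + (m + 1) + (m + 1) + t)) m
    (by rw [e2]; simpa using fstc_W_two V m 2 (by omega))
    (fun t ht => by rw [e2]; exact fstc_W_off V m 2 t (by omega) ht)]
  congr 1
  simp only [List.range_one, List.map_cons, List.map_nil, Nat.add_zero]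
  rw [(fstc_W_one V m _).mpr (by omega)]

theorem fstc_test {k : ℕ} (F : FST k) (N u i : ℕ) (w : ℕ → Fin 5) (b : Fin 5) (q : Fin k) :
    F.out q (tin N u i) = tou ((List.range N).map w) u i b ↔
      (∀ t < u, fstc_o F ((fstc_z F)^[t] q) = 0) ∧
      (F.next ((fstc_z F)^[u] q) 1).2 = 0 ∧
      fstc_o F (fstc_s F u q) = 2 ∧
      (∀ t < i, fstc_o F ((fstc_z F)^[t + 1] (fstc_s F u q)) = 0) ∧
      (F.next ((fstc_z F)^[i + 1] (fstc_s F u q)) 1).2 = b ∧
      ∀ t < N, fstc_o F ((fstc_z F)^[t] (fstc_s F (i + 1) (fstc_s F u q))) = w t := by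
  have h1 : F.out q (tin N u i) =
      ((List.range u).map fun t => fstc_o F ((fstc_z F)^[t] q)) ++
        (F.next ((fstc_z F)^[u] q) 1).2 ::
          (((List.range (i + 1)).map fun t => fstc_o F ((fstc_z F)^[t] (fstc_s F u q))) ++
            (F.next ((fstc_z F)^[i + 1] (fstc_s F u q)) 1).2 ::
              ((List.range N).map fun t =>
                fstc_o F ((fstc_z F)^[t] (fstc_s F (i + 1) (fstc_s F u q))))) := by
    unfold tin
    rw [fstc_out_append, fstc_out_zero, fstc_st_zero, FST.out, fstc_out_append, fstc_out_zero,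
      fstc_st_zero, FST.out, fstc_out_zero]
    rfl
  rw [h1]
  unfold tou
  constructor
  · intro h
    obtain ⟨h2, h3⟩ := List.append_inj h (by simp)
    obtain ⟨h4, h5⟩ := List.cons_eq_cons.mp h3
    obtain ⟨h6, h7⟩ := List.append_inj h5 (by simp)
    obtain ⟨h8, h9⟩ := List.cons_eq_cons.mp h7
    rw [← fstc_rep (fun _ => (0 : Fin 5)) u 0 (fun _ _ => rfl)] at h2
    rw [← fstc_block (fun t => if t = 0 then (2 : Fin 5) else 0) i (by simp)
      (fun t _ => by simp)] at h6
    have h6' := fstc_map_inj _ _ _ h6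
    refine ⟨fstc_map_inj _ _ _ h2, h4, ?_, ?_, h8, fstc_map_inj _ _ _ h9⟩
    · simpa using h6' 0 (by omega)
    · intro t ht
      simpa using h6' (t + 1) (by omega)
  · rintro ⟨h2, h4, h5, h6, h8, h9⟩
    rw [fstc_rep _ u 0 h2, h4, h8]
    congr 2
    rw [fstc_block _ i h5 h6]
    congr 2
    exact List.map_inj_left.mpr fun t ht => h9 t (List.mem_range.mp ht)

theorem fstc_st_test {k : ℕ} (F : FST k) (N u i : ℕ) (q : Fin k) :
    fstc_st F q (tin N u i) = (fstc_z F)^[N] (fstc_s F (i + 1) (fstc_s F u q)) := by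
  unfold tin
  rw [fstc_st_append, fstc_st_zero, fstc_st, fstc_st_append, fstc_st_zero, fstc_st,
    fstc_st_zero]
  rfl

theorem fstc_len (w : List (Fin 5)) (N u i : ℕ) (b : Fin 5) (hw : w.length = N) :
    (tin N u i).length = (tou w u i b).length := by
  simp [tin, tou, hw]
  omega

/-- the input of all tests -/
def fstc_X (N : ℕ) (L : List ((ℕ × ℕ) × ℕ)) : List (Fin 5) :=
  L.flatMap fun e => tin N e.1.1 e.2 ++ tin N e.1.2 e.2

/-- the output of all tests -/
def fstc_Y (w : List (Fin 5)) (L : List ((ℕ × ℕ) × ℕ)) : List (Fin 5) :=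
  L.flatMap fun e => tou w e.1.1 e.2 3 ++ tou w e.1.2 e.2 4

theorem fstc_len_XY (w : List (Fin 5)) (N : ℕ) (hw : w.length = N)
    (L : List ((ℕ × ℕ) × ℕ)) : (fstc_X N L).length = (fstc_Y w L).length := by
  induction L with
  | nil => rfl
  | cons e L ih =>
    simp only [fstc_X, fstc_Y, List.flatMap_cons, List.length_append] at ih ⊢
    rw [ih, fstc_len w N e.1.1 e.2 3 hw, fstc_len w N e.1.2 e.2 4 hw]

/-- all tests from a state which returns to itself -/
theorem fstc_all {k : ℕ} (F : FST k) (N : ℕ) (w : ℕ → Fin 5) (q : Fin k)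
    (hz : (fstc_z F)^[N] q = q)
    (hq : ∀ s, (∀ t < N, fstc_o F ((fstc_z F)^[t] s) = w t) → s = q)
    (L : List ((ℕ × ℕ) × ℕ)) :
    F.out q (fstc_X N L) = fstc_Y ((List.range N).map w) L ↔
      ∀ e ∈ L, F.out q (tin N e.1.1 e.2) = tou ((List.range N).map w) e.1.1 e.2 3 ∧
        F.out q (tin N e.1.2 e.2) = tou ((List.range N).map w) e.1.2 e.2 4 := by
  have hst : ∀ u i b, F.out q (tin N u i) = tou ((List.range N).map w) u i b →
      fstc_st F q (tin N u i) = q := by
    intro u i b h
    rw [fstc_st_test, hq _ ((fstc_test F N u i w b q).mp h).2.2.2.2.2, hz]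
  have hl : ((List.range N).map w).length = N := by simp
  induction L with
  | nil => simp [fstc_X, fstc_Y, FST.out]
  | cons e L ih =>
    have eX : fstc_X N (e :: L) = tin N e.1.1 e.2 ++ (tin N e.1.2 e.2 ++ fstc_X N L) := by
      simp [fstc_X]
    have eY : fstc_Y ((List.range N).map w) (e :: L) =
        tou ((List.range N).map w) e.1.1 e.2 3 ++
          (tou ((List.range N).map w) e.1.2 e.2 4 ++ fstc_Y ((List.range N).map w) L) := by
      simp [fstc_Y]
    rw [eX, eY, fstc_out_append, List.forall_mem_cons]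
    constructor
    · intro h
      obtain ⟨h1, h2⟩ := List.append_inj h (by
        rw [fstc_out_length]; exact fstc_len _ N e.1.1 e.2 3 hl)
      rw [hst _ _ _ h1, fstc_out_append] at h2
      obtain ⟨h3, h4⟩ := List.append_inj h2 (by
        rw [fstc_out_length]; exact fstc_len _ N e.1.2 e.2 4 hl)
      rw [hst _ _ _ h3] at h4
      exact ⟨⟨h1, h3⟩, ih.mp h4⟩
    · rintro ⟨⟨h1, h3⟩, h4⟩
      rw [h1, hst _ _ _ h1, fstc_out_append, h3, hst _ _ _ h3, ih.mpr h4]

theorem fstc_ww (V : ℕ) (E : List (ℕ × ℕ)) :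
    wz V E ++ wz V E =
      (List.range (2 * nst V E)).map fun t => fstc_W V E.length (t % nst V E) := by
  rw [two_mul, fstc_rm, fstc_wz]
  congr 1
  · exact List.map_inj_left.mpr fun t ht => by rw [Nat.mod_eq_of_lt (List.mem_range.mp ht)]
  · exact List.map_inj_left.mpr fun t ht => by
      rw [Nat.add_mod_left, Nat.mod_eq_of_lt (List.mem_range.mp ht)]

/-- From a transducer to a colouring. -/
theorem fstc_mp (V : ℕ) (E : List (ℕ × ℕ)) (h : EncFST (xs V E, ys V E, nst V E)) : Col E := by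
  obtain ⟨j, hj, F, hF⟩ := h
  simp only at hj hF
  set N := nst V E with hN
  set m := E.length with hm
  have hNm : N = V + 3 * (m + 1) + 1 := rfl
  set q0 := F.start with hq0
  set w := fstc_W V m with hw
  have hwz : wz V E = (List.range N).map w := fstc_wz V E
  have hxs : xs V E = List.replicate (2 * N) 0 ++ fstc_X N E.zipIdx := rfl
  have hys : ys V E = (wz V E ++ wz V E) ++ fstc_Y (wz V E) E.zipIdx := rfl
  rw [hxs, hys, fstc_out_append] at hF
  obtain ⟨h1, h2⟩ := List.append_inj hF (by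
    rw [fstc_out_length, List.length_replicate, hwz]; simp; omega)
  rw [fstc_out_zero, fstc_ww] at h1
  have h3 : ∀ t < 2 * N, fstc_o F ((fstc_z F)^[t] q0) = w (t % N) := fstc_map_inj _ _ _ h1
  have hinj : ∀ a b, a < b → b < N → (fstc_z F)^[a] q0 ≠ (fstc_z F)^[b] q0 := by
    intro a b hab hb heq
    have e1 : fstc_o F ((fstc_z F)^[N - 1 - a + a] q0) =
        fstc_o F ((fstc_z F)^[N - 1 - a + b] q0) := by
      rw [Function.iterate_add_apply, Function.iterate_add_apply, heq]
    rw [h3 _ (by omega), h3 _ (by omega)] at e1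
    have e2 : (N - 1 - a + a) % N = N - 1 := by
      rw [Nat.mod_eq_of_lt (by omega)]; omega
    have e3 : (N - 1 - a + b) % N = b - a - 1 := by
      have : N - 1 - a + b = N + (b - a - 1) := by omega
      rw [this, Nat.add_mod_left, Nat.mod_eq_of_lt (by omega)]
    have e4 : w (N - 1) = 1 := (fstc_W_one V m (N - 1)).mpr (by omega)
    rw [e2, e3, e4] at e1
    have := (fstc_W_one V m (b - a - 1)).mp e1.symm
    omega
  have hgi : Function.Injective (fun t : Fin N => (fstc_z F)^[(t : ℕ)] q0) := by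
    intro a b hab
    simp only at hab
    rcases lt_trichotomy (a : ℕ) (b : ℕ) with h | h | h
    · exact absurd hab (hinj a b h b.2)
    · exact Fin.ext h
    · exact absurd hab.symm (hinj b a h a.2)
  have hjN : N ≤ j := by
    have := Fintype.card_le_of_injective _ hgi
    simpa using this
  have hjN' : j = N := le_antisymm hj hjN
  have hsur : ∀ s : Fin j, ∃ t < N, (fstc_z F)^[t] q0 = s := by
    intro s
    have hb : Function.Bijective (fun t : Fin N => (fstc_z F)^[(t : ℕ)] q0) :=
      (Fintype.bijective_iff_injective_and_card _).mpr ⟨hgi, by simp [hjN']⟩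
    obtain ⟨t, ht⟩ := hb.2 s
    exact ⟨t, t.2, ht⟩
  have hB : ∀ s, (∀ t < N, fstc_o F ((fstc_z F)^[t] s) = w t) → s = q0 := by
    intro s hs
    obtain ⟨t0, ht0, rfl⟩ := hsur s
    by_contra hne
    have ht00 : t0 ≠ 0 := by
      rintro rfl
      exact hne rfl
    have e1 := hs (N - 1 - t0) (by omega)
    rw [← Function.iterate_add_apply, h3 _ (by omega)] at e1
    have e2 : (N - 1 - t0 + t0) % N = N - 1 := by
      rw [Nat.mod_eq_of_lt (by omega)]; omega
    have e4 : w (N - 1) = 1 := (fstc_W_one V m (N - 1)).mpr (by omega)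
    rw [e2, e4] at e1
    have := (fstc_W_one V m (N - 1 - t0)).mp e1.symm
    omega
  have hz : (fstc_z F)^[N] q0 = q0 := by
    apply hB
    intro t ht
    rw [← Function.iterate_add_apply, h3 _ (by omega), Nat.add_mod_right,
      Nat.mod_eq_of_lt ht]
  have hz2 : (fstc_z F)^[2 * N] q0 = q0 := by
    rw [two_mul, Function.iterate_add_apply, hz, hz]
  rw [fstc_st_zero, hz2, hwz] at h2
  have h4 := (fstc_all F N w q0 hz hB E.zipIdx).mp h2
  classical
  -- the colour of a vertex
  have hex : ∀ u : ℕ, fstc_o F (fstc_s F u q0) = 2 →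
      ∃ c : Fin 3, fstc_s F u q0 = (fstc_z F)^[V + (c : ℕ) * (m + 1)] q0 := by
    intro u hu
    obtain ⟨t, ht, hts⟩ := hsur (fstc_s F u q0)
    have e1 := h3 t (by omega)
    rw [hts, hu, Nat.mod_eq_of_lt ht] at e1
    obtain ⟨c, hc⟩ := fstc_W_two' V m t (by omega) e1.symm
    exact ⟨c, by rw [← hc, hts]⟩
  let col : ℕ → Fin 3 := fun u =>
    if h : fstc_o F (fstc_s F u q0) = 2 then (hex u h).choose else 0
  have hcol : ∀ u, fstc_o F (fstc_s F u q0) = 2 →
      fstc_s F u q0 = (fstc_z F)^[V + (col u : ℕ) * (m + 1)] q0 := by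
    intro u hu
    have : col u = (hex u hu).choose := dif_pos hu
    rw [this]
    exact (hex u hu).choose_spec
  refine ⟨col, ?_⟩
  intro e he heq
  obtain ⟨i, hi, hie⟩ := List.mem_iff_getElem.mp he
  have hmem : (e, i) ∈ E.zipIdx := by
    rw [List.mk_mem_zipIdx_iff_getElem?]
    rw [List.getElem?_eq_getElem hi, hie]
  obtain ⟨t1, t2⟩ := h4 (e, i) hmem
  obtain ⟨-, -, a1, -, a2, -⟩ := (fstc_test F N _ _ w _ q0).mp t1
  obtain ⟨-, -, b1, -, b2, -⟩ := (fstc_test F N _ _ w _ q0).mp t2
  simp only at a1 a2 b1 b2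
  rw [hcol _ a1, heq, ← hcol _ b1, b2] at a2
  exact absurd a2 (by decide)

/-- The transducer of a colouring. -/
def fstc_F (V : ℕ) (E : List (ℕ × ℕ)) (c : ℕ → Fin 3) : FST (nst V E) where
  start := ⟨0, by unfold nst; omega⟩
  next q a := if a = 0 then
      (⟨((q : ℕ) + 1) % nst V E, Nat.mod_lt _ (by unfold nst; omega)⟩, fstc_W V E.length q)
    else if (q : ℕ) < V then
      (⟨V + (c q : ℕ) * (E.length + 1), by
        have h1 : (c q : ℕ) * (E.length + 1) ≤ 2 * (E.length + 1) :=
          Nat.mul_le_mul_right _ (by have := (c q).2; omega)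
        unfold nst; omega⟩, 0)
    else
      (⟨0, by unfold nst; omega⟩,
        if ((c (E.getD (((q : ℕ) - V) % (E.length + 1) - 1) (0, 0)).1 : Fin 3) : ℕ) =
          ((q : ℕ) - V) / (E.length + 1) then 3 else 4)

theorem fstc_F_iter (V : ℕ) (E : List (ℕ × ℕ)) (c : ℕ → Fin 3) (t : ℕ) (q : Fin (nst V E)) :
    (((fstc_z (fstc_F V E c))^[t] q : Fin (nst V E)) : ℕ) = ((q : ℕ) + t) % nst V E := by
  induction t with
  | zero => simp [Nat.mod_eq_of_lt q.2]
  | succ t ih =>
    rw [Function.iterate_succ_apply']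
    change (((_ : Fin (nst V E)) : ℕ) + 1) % nst V E = _
    rw [ih, Nat.mod_add_mod, Nat.add_assoc]

theorem fstc_F_o (V : ℕ) (E : List (ℕ × ℕ)) (c : ℕ → Fin 3) (q : Fin (nst V E)) :
    fstc_o (fstc_F V E c) q = fstc_W V E.length q := rfl

/-- From a colouring to a transducer. -/
theorem fstc_mpr (V : ℕ) (E : List (ℕ × ℕ)) (hE : ∀ e ∈ E, e.1 < V ∧ e.2 < V) (h : Col E) :
    EncFST (xs V E, ys V E, nst V E) := by
  obtain ⟨c, hc⟩ := h
  refine ⟨nst V E, le_refl _, fstc_F V E c, ?_⟩
  simp only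
  set N := nst V E with hN
  set m := E.length with hm
  have hNm : N = V + 3 * (m + 1) + 1 := rfl
  set F := fstc_F V E c with hF
  set q0 := F.start with hq0
  have hq00 : (q0 : ℕ) = 0 := rfl
  set w := fstc_W V m with hw
  have hwz : wz V E = (List.range N).map w := fstc_wz V E
  have hxs : xs V E = List.replicate (2 * N) 0 ++ fstc_X N E.zipIdx := rfl
  have hys : ys V E = (wz V E ++ wz V E) ++ fstc_Y (wz V E) E.zipIdx := rfl
  have hit : ∀ t, fstc_o F ((fstc_z F)^[t] q0) = w (t % N) := by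
    intro t
    rw [hF, fstc_F_o, fstc_F_iter, hq00, Nat.zero_add]
  have hz : (fstc_z F)^[N] q0 = q0 := by
    apply Fin.ext
    rw [hF, fstc_F_iter, hq00, Nat.zero_add, Nat.mod_self]
  have hB : ∀ s, (∀ t < N, fstc_o F ((fstc_z F)^[t] s) = w t) → s = q0 := by
    intro s hs
    by_contra hne
    have hs0 : (s : ℕ) ≠ 0 := fun h0 => hne (Fin.ext (by rw [h0, hq00]))
    have hsN : (s : ℕ) < N := s.2
    have e1 := hs (N - 1 - s) (by omega)
    rw [hF, fstc_F_o, fstc_F_iter] at e1
    have e2 : ((s : ℕ) + (N - 1 - s)) % nst V E = N - 1 := by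
      rw [Nat.mod_eq_of_lt (by omega)]; omega
    rw [e2] at e1
    have e3 : fstc_W V E.length (N - 1) = 1 := (fstc_W_one V m (N - 1)).mpr (by omega)
    rw [e3] at e1
    have := (fstc_W_one V m (N - 1 - s)).mp e1.symm
    omega
  have htest : ∀ e : ℕ × ℕ, ∀ i u : ℕ, E[i]? = some e → u < V →
      F.out q0 (tin N u i) = tou ((List.range N).map w) u i
        (if ((c e.1 : Fin 3) : ℕ) = (c u : ℕ) then 3 else 4) := by
    intro e i u hi hu
    obtain ⟨him, hie⟩ := List.getElem?_eq_some_iff.mp hi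
    rw [fstc_test]
    have hzu : (fstc_z F)^[u] q0 = ⟨u, by omega⟩ := by
      apply Fin.ext
      rw [hF, fstc_F_iter, hq00, Nat.zero_add, Nat.mod_eq_of_lt (by omega)]
    have hn1 : F.next ⟨u, by omega⟩ 1 = (⟨V + (c u : ℕ) * (E.length + 1), by
        have h1 : (c u : ℕ) * (E.length + 1) ≤ 2 * (E.length + 1) :=
          Nat.mul_le_mul_right _ (by have := (c u).2; omega)
        omega⟩, 0) := by
      rw [hF]
      simp only [fstc_F]
      rw [if_neg (by decide), if_pos hu]
    have hcu : (c u : ℕ) * (m + 1) ≤ 2 * (m + 1) :=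
      Nat.mul_le_mul_right _ (by have := (c u).2; omega)
    have hs : fstc_s F u q0 = ⟨V + (c u : ℕ) * (m + 1), by omega⟩ := by
      unfold fstc_s
      rw [hzu, hn1]
    have hsi : ∀ (t : ℕ) (ht : t ≤ m), (fstc_z F)^[t] (fstc_s F u q0) =
        ⟨V + (c u : ℕ) * (m + 1) + t, by omega⟩ := by
      intro t ht
      apply Fin.ext
      rw [hs, hF, fstc_F_iter, Nat.mod_eq_of_lt (by
        simp only
        omega)]
    have hn2 : F.next ((fstc_z F)^[i + 1] (fstc_s F u q0)) 1 =
        (q0, if ((c e.1 : Fin 3) : ℕ) = (c u : ℕ) then 3 else 4) := by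
      rw [hsi (i + 1) (by omega), hF]
      simp only [fstc_F]
      rw [if_neg (by decide), if_neg (by omega)]
      have e1 : V + (c u : ℕ) * (m + 1) + (i + 1) - V = (i + 1) + (c u : ℕ) * (m + 1) := by omega
      rw [← hm, e1, Nat.add_mul_mod_self_right, Nat.mod_eq_of_lt (by omega),
        Nat.add_mul_div_right _ _ (by omega), Nat.div_eq_of_lt (by omega), Nat.zero_add]
      have e2 : E.getD (i + 1 - 1) (0, 0) = e := by
        rw [Nat.add_sub_cancel, List.getD_eq_getElem?_getD, hi]
        rfl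
      rw [e2]
      rfl
    refine ⟨?_, ?_, ?_, ?_, ?_, ?_⟩
    · intro t ht
      rw [hit, Nat.mod_eq_of_lt (by omega)]
      exact fstc_W_zero V m t (by omega)
    · rw [hzu, hn1]
    · rw [hs]
      exact fstc_W_two V m (c u) (c u).2
    · intro t ht
      rw [hsi (t + 1) (by omega)]
      exact fstc_W_off V m (c u) t (c u).2 (by omega)
    · rw [hn2]
    · intro t ht
      have e1 : fstc_s F (i + 1) (fstc_s F u q0) = q0 := by
        change (F.next ((fstc_z F)^[i + 1] (fstc_s F u q0)) 1).1 = q0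
        rw [hn2]
      rw [e1, hit, Nat.mod_eq_of_lt ht]
  have hz2 : (fstc_z F)^[2 * N] q0 = q0 := by
    rw [two_mul, Function.iterate_add_apply, hz, hz]
  rw [hxs, hys, fstc_out_append, fstc_out_zero, fstc_st_zero, hz2, fstc_ww, hwz,
    (fstc_all F N w q0 hz hB E.zipIdx).mpr ?_]
  · congr 1
    exact List.map_inj_left.mpr fun t _ => hit t
  · rintro ⟨e, i⟩ he
    rw [List.mk_mem_zipIdx_iff_getElem?] at he
    have hmem : e ∈ E := List.mem_of_getElem? he
    obtain ⟨h1, h2⟩ := hE e hmem
    have t1 := htest e i e.1 he h1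
    have t2 := htest e i e.2 he h2
    rw [if_pos rfl] at t1
    rw [if_neg (fun h => hc e hmem (Fin.ext h))] at t2
    exact ⟨t1, t2⟩

/-- Module FSTC. -/
theorem st_FSTC : ST_FSTC := by
  intro V E hE
  refine ⟨⟨fstc_mp V E, fstc_mpr V E hE⟩, ?_, ?_⟩
  · have hxs : xs V E = List.replicate (2 * nst V E) 0 ++ fstc_X (nst V E) E.zipIdx := rfl
    have hys : ys V E = (wz V E ++ wz V E) ++ fstc_Y (wz V E) E.zipIdx := rfl
    have hwl : (wz V E).length = nst V E := by rw [fstc_wz]; simp
    rw [hxs, hys, List.length_append, List.length_append, List.length_append,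
      fstc_len_XY (wz V E) (nst V E) hwl, List.length_replicate, hwl]
    omega
  · intro a ha
    unfold xs at ha
    rw [List.mem_append, List.mem_flatMap] at ha
    have h0 : ∀ n, a ∈ List.replicate n (0 : Fin 5) → (a : ℕ) ≤ 1 := by
      intro n hn
      rw [List.eq_of_mem_replicate hn]
      simp
    have htin : ∀ N u i, a ∈ tin N u i → (a : ℕ) ≤ 1 := by
      intro N u i h
      unfold tin at h
      rw [List.mem_append, List.mem_cons, List.mem_append, List.mem_cons] at h
      rcases h with h | h | h | h | h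
      · exact h0 _ h
      · rw [h]; simp
      · exact h0 _ h
      · rw [h]; simp
      · exact h0 _ h
    rcases ha with h | ⟨e, -, h⟩
    · exact h0 _ h
    · rcases List.mem_append.mp h with h | h
      · exact htin _ _ _ h
      · exact htin _ _ _ h

end Pool.Agent.Helper82.EN
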